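import Mathlib

set_option autoImplicit false

open MeasureTheory ProbabilityTheory Set Filter Topology
open scoped NNReal ENNReal

namespace Pool.Agent.Y978.ST

theorem gauss_small {δ : ℝ} (hδ : 0 < δ) : (gaussianReal 0 1).real (Ioo (-δ) δ) ≤ δ := by
  have h1 : (gaussianReal 0 1) (Ioo (-δ) δ) ≤ ENNReal.ofReal δ := by
    rw [gaussianReal_apply 0 (one_ne_zero) (Ioo (-δ) δ)]
    calc ∫⁻ x in Ioo (-δ) δ, gaussianPDF 0 1 x ≤ ∫⁻ x in Ioo (-δ) δ, ENNReal.ofReal (1 / 2) := by
          apply lintegral_mono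
          intro x
          unfold gaussianPDF
          apply ENNReal.ofReal_le_ofReal
          unfold gaussianPDFReal
          have h2 : (√(2 * Real.pi * ((1 : ℝ≥0) : ℝ)))⁻¹ ≤ 1 / 2 := by
            rw [← one_div]
            apply one_div_le_one_div_of_le two_pos
            rw [Real.le_sqrt two_pos.le (by positivity)]
            simp only [NNReal.coe_one, mul_one]
            linarith [Real.pi_gt_three]
          have h3 : Real.exp (-(x - 0) ^ 2 / (2 * ((1 : ℝ≥0) : ℝ))) ≤ 1 := by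
            apply Real.exp_le_one_iff.2
            simp only [sub_zero, NNReal.coe_one, mul_one]
            have : 0 ≤ x ^ 2 := sq_nonneg x
            linarith
          calc (√(2 * Real.pi * ((1 : ℝ≥0) : ℝ)))⁻¹ * Real.exp (-(x - 0) ^ 2 / (2 * ((1 : ℝ≥0) : ℝ)))
              ≤ 1 / 2 * 1 := mul_le_mul h2 h3 (Real.exp_pos _).le (by norm_num)
            _ = 1 / 2 := mul_one _
      _ = ENNReal.ofReal (1 / 2) * volume (Ioo (-δ) δ) := by
          rw [lintegral_const]
          simp
      _ = ENNReal.ofReal δ := by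
          rw [Real.volume_Ioo, ← ENNReal.ofReal_mul (by norm_num)]
          congr 1
          ring
  exact ENNReal.toReal_le_of_le_ofReal hδ.le h1

/-- A probability measure on the plane whose Fourier transform decays like `|ξ| ^ (-1/4)` gives
small mass to thin horizontal strips. -/
theorem strip (μ : Measure (ℝ × ℝ)) [IsProbabilityMeasure μ] (C : ℝ)
    (hC : ∀ ξ : ℝ × ℝ, 1 ≤ ‖ξ‖ →
      ‖∫ p, Complex.exp (((ξ.1 * p.1 + ξ.2 * p.2 : ℝ) : ℂ) * Complex.I) ∂μ‖
        ≤ C * ‖ξ‖ ^ (-(1 / 2 : ℝ) / 2)) {δ : ℝ} (hδ : 0 < δ) (hδ1 : δ ≤ 1) (y : ℝ) :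
    μ.real {p : ℝ × ℝ | |p.2 - y| ≤ δ ^ 5} ≤ 2 * (1 + |C|) * δ := by
  set r : ℝ := δ ^ 5 with hr
  have hr0 : 0 < r := by positivity
  set A : Set (ℝ × ℝ) := {p : ℝ × ℝ | |p.2 - y| ≤ r} with hA
  have hAm : MeasurableSet A := by
    apply measurableSet_le _ measurable_const
    exact (measurable_snd.sub_const y).abs
  let f : ℝ × ℝ → ℝ := fun p => Real.exp (-(((p.2 - y) / r) ^ 2) / 2)
  have hfm : Measurable f := by fun_prop
  have hf1 : ∀ p, f p ≤ 1 := by
    intro p
    apply Real.exp_le_one_iff.2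
    have : 0 ≤ ((p.2 - y) / r) ^ 2 := sq_nonneg _
    linarith
  have hf0 : ∀ p, 0 ≤ f p := fun p => (Real.exp_pos _).le
  have hfi : Integrable f μ := Integrable.of_bound hfm.aestronglyMeasurable 1
    (ae_of_all _ (fun p => by rw [Real.norm_of_nonneg (hf0 p)]; exact hf1 p))
  have hhalf : ∀ p ∈ A, 1 / 2 ≤ f p := by
    intro p hp
    have h1 : ((p.2 - y) / r) ^ 2 ≤ 1 := by
      rw [← sq_abs, abs_div, abs_of_pos hr0]
      apply pow_le_one₀ (by positivity)
      rw [div_le_one hr0]
      exact hp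
    have h2 : -(1 : ℝ) / 2 + 1 ≤ Real.exp (-(1 : ℝ) / 2) := Real.add_one_le_exp _
    calc (1 : ℝ) / 2 = -(1 : ℝ) / 2 + 1 := by norm_num
      _ ≤ Real.exp (-(1 : ℝ) / 2) := h2
      _ ≤ f p := Real.exp_le_exp.2 (by linarith)
  have step1 : μ.real A * (1 / 2) ≤ ∫ p, f p ∂μ := by
    calc μ.real A * (1 / 2) = ∫ p in A, (1 / 2 : ℝ) ∂μ := by
          rw [setIntegral_const, smul_eq_mul]
      _ ≤ ∫ p in A, f p ∂μ := by
          apply setIntegral_mono_on (integrable_const _).integrableOn hfi.integrableOn hAm hhalf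
      _ ≤ ∫ p, f p ∂μ := setIntegral_le_integral hfi (ae_of_all _ hf0)
  -- Fourier representation
  have hrep : ∀ p : ℝ × ℝ, ((f p : ℝ) : ℂ) =
      ∫ η : ℝ, Complex.exp (((η * ((p.2 - y) / r) : ℝ) : ℂ) * Complex.I) ∂(gaussianReal 0 1) := by
    intro p
    have h := charFun_gaussianReal (μ := 0) (v := 1) ((p.2 - y) / r)
    rw [charFun_apply_real] at h
    have e1 : ∀ x : ℝ, Complex.exp ((((p.2 - y) / r : ℝ) : ℂ) * x * Complex.I) =
        Complex.exp (((x * ((p.2 - y) / r) : ℝ) : ℂ) * Complex.I) := by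
      intro x
      congr 1
      push_cast
      ring
    simp_rw [e1] at h
    rw [h]
    simp only [f]
    rw [Complex.ofReal_exp]
    congr 1
    push_cast
    ring
  have step2 : ((∫ p, f p ∂μ : ℝ) : ℂ) = ∫ η : ℝ, (Complex.exp (((-(η * (y / r)) : ℝ) : ℂ) *
      Complex.I) * ∫ p : ℝ × ℝ, Complex.exp ((((0 : ℝ) * p.1 + (η / r) * p.2 : ℝ) : ℂ) *
        Complex.I) ∂μ) ∂(gaussianReal 0 1) := by
    rw [← integral_complex_ofReal]
    simp_rw [hrep]
    rw [integral_integral_swap]
    · congr 1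
      ext η
      rw [← integral_const_mul]
      congr 1
      ext p
      rw [← Complex.exp_add]
      congr 1
      push_cast
      field_simp
      ring
    · refine Integrable.of_bound ?_ 1 (ae_of_all _ (fun z => ?_))
      · apply Measurable.aestronglyMeasurable
        apply Complex.measurable_exp.comp
        apply Measurable.mul_const
        apply Complex.measurable_ofReal.comp
        fun_prop
      · simp only [Function.uncurry]
        rw [Complex.norm_exp_ofReal_mul_I]
  have hbound : ∀ η : ℝ, ‖∫ p : ℝ × ℝ, Complex.exp ((((0 : ℝ) * p.1 + (η / r) * p.2 : ℝ) : ℂ) *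
        Complex.I) ∂μ‖ ≤ (Ioo (-δ) δ).indicator (fun _ => (1 : ℝ)) η + |C| * δ := by
    intro η
    by_cases hη : η ∈ Ioo (-δ) δ
    · rw [indicator_of_mem hη]
      have h1 : ‖∫ p : ℝ × ℝ, Complex.exp ((((0 : ℝ) * p.1 + (η / r) * p.2 : ℝ) : ℂ) *
        Complex.I) ∂μ‖ ≤ 1 := by
        refine (norm_integral_le_integral_norm _).trans ?_
        simp_rw [Complex.norm_exp_ofReal_mul_I]
        simp
      have : 0 ≤ |C| * δ := by positivity
      linarith
    · rw [indicator_of_notMem hη, zero_add]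
      have h1 : δ ≤ |η| := by
        by_contra hc
        exact hη (abs_lt.1 (not_le.1 hc))
      have hn : ‖((0 : ℝ), η / r)‖ = |η| / r := by
        rw [Prod.norm_def, norm_zero, Real.norm_eq_abs, abs_div, abs_of_pos hr0]
        exact max_eq_right (by positivity)
      have h2 : (δ ^ 4)⁻¹ ≤ |η| / r := by
        rw [inv_eq_one_div, div_le_div_iff₀ (by positivity) hr0, one_mul, hr]
        calc δ ^ 5 = δ * δ ^ 4 := by ring
          _ ≤ |η| * δ ^ 4 := mul_le_mul_of_nonneg_right h1 (by positivity)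
      have h3 : 1 ≤ (δ ^ 4)⁻¹ := by
        rw [one_le_inv₀ (by positivity)]
        exact pow_le_one₀ hδ.le hδ1
      have h4 := hC (0, η / r) (by rw [hn]; linarith)
      rw [hn] at h4
      refine h4.trans ?_
      have h5 : (|η| / r) ^ (-(1 / 2 : ℝ) / 2) ≤ δ := by
        have h6 : ((δ ^ 4)⁻¹) ^ (-(1 / 2 : ℝ) / 2) = δ := by
          rw [Real.inv_rpow (by positivity), ← Real.rpow_neg (by positivity), ← Real.rpow_natCast,
            ← Real.rpow_mul hδ.le]
          norm_num
        calc (|η| / r) ^ (-(1 / 2 : ℝ) / 2) ≤ ((δ ^ 4)⁻¹) ^ (-(1 / 2 : ℝ) / 2) :=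
              Real.rpow_le_rpow_of_nonpos (by positivity) h2 (by norm_num)
          _ = δ := h6
      have h7 : 0 ≤ (|η| / r) ^ (-(1 / 2 : ℝ) / 2) := Real.rpow_nonneg (by positivity) _
      calc C * (|η| / r) ^ (-(1 / 2 : ℝ) / 2) ≤ |C| * (|η| / r) ^ (-(1 / 2 : ℝ) / 2) :=
            mul_le_mul_of_nonneg_right (le_abs_self C) h7
        _ ≤ |C| * δ := mul_le_mul_of_nonneg_left h5 (abs_nonneg _)
  have step3 : ∫ p, f p ∂μ ≤ δ + |C| * δ := by
    have h1 : ∫ p, f p ∂μ = ‖((∫ p, f p ∂μ : ℝ) : ℂ)‖ := by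
      rw [Complex.norm_real, Real.norm_of_nonneg (integral_nonneg hf0)]
    rw [h1, step2]
    refine (norm_integral_le_integral_norm _).trans ?_
    calc ∫ η : ℝ, ‖(Complex.exp (((-(η * (y / r)) : ℝ) : ℂ) *
      Complex.I) * ∫ p : ℝ × ℝ, Complex.exp ((((0 : ℝ) * p.1 + (η / r) * p.2 : ℝ) : ℂ) *
        Complex.I) ∂μ)‖ ∂(gaussianReal 0 1)
        ≤ ∫ η : ℝ, ((Ioo (-δ) δ).indicator (fun _ => (1 : ℝ)) η + |C| * δ) ∂(gaussianReal 0 1) := by
          apply integral_mono_of_nonneg (ae_of_all _ (fun η => norm_nonneg _))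
          · apply Integrable.add _ (integrable_const _)
            exact (integrable_const (1 : ℝ)).indicator measurableSet_Ioo
          · refine ae_of_all _ (fun η => ?_)
            simp only
            rw [norm_mul, Complex.norm_exp_ofReal_mul_I, one_mul]
            exact hbound η
      _ = (gaussianReal 0 1).real (Ioo (-δ) δ) + |C| * δ := by
          rw [integral_add ((integrable_const (1 : ℝ)).indicator measurableSet_Ioo)
            (integrable_const _), integral_indicator measurableSet_Ioo]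
          simp
      _ ≤ δ + |C| * δ := by
          have := gauss_small hδ
          linarith
  have := step1.trans step3
  linarith

end Pool.Agent.Y978.ST
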