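import Pool.Agent.Y978.ST.Proc
import Pool.Agent.Y978.ST.Gauss

set_option autoImplicit false

open MeasureTheory ProbabilityTheory Set Filter Topology
open scoped NNReal ENNReal

namespace Pool.Agent.Y978.ST

/-- number of points of finitely many levels in the first block up to time `t` -/
noncomputable def Nn (F : Finset ℤ) (t : ℝ) (ω : Om) : ℕ :=
  ∑ m ∈ F, ∑ i ∈ Finset.range (ω (m, 0)).1,
    if 0 < ((ω (m, 0)).2 i).1 ∧ ((0 : ℕ) : ℝ) + ((ω (m, 0)).2 i).1 ≤ t then 1 else 0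

theorem S_eq_of_Nn {F : Finset ℤ} {s t : ℝ} (hst : s ≤ t) (ht : t ≤ 1) {ω : Om}
    (h : Nn F s ω = Nn F t ω) : S F s ω = S F t ω := by
  have hle : ∀ m i, (if 0 < ((ω (m, 0)).2 i).1 ∧ ((0 : ℕ) : ℝ) + ((ω (m, 0)).2 i).1 ≤ s
      then 1 else 0) ≤ (if 0 < ((ω (m, 0)).2 i).1 ∧ ((0 : ℕ) : ℝ) + ((ω (m, 0)).2 i).1 ≤ t
      then 1 else 0) := by
    intro m i
    split_ifs with h1 h2
    · exact le_rfl
    · exact absurd ⟨h1.1, h1.2.trans hst⟩ h2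
    · exact Nat.zero_le _
    · exact le_rfl
  unfold Nn at h
  rw [Finset.sum_eq_sum_iff_of_le (fun m _ => Finset.sum_le_sum (fun i _ => hle m i))] at h
  unfold S
  refine Finset.sum_congr rfl (fun m hm => ?_)
  have h2 := h m hm
  rw [Finset.sum_eq_sum_iff_of_le (fun i _ => hle m i)] at h2
  have hs1 : ⌈s⌉₊ ≤ 1 := by rw [Nat.ceil_le]; push_cast; linarith
  have ht1 : ⌈t⌉₊ ≤ 1 := by rw [Nat.ceil_le]; push_cast; linarith
  rw [L_eq m hs1, L_eq m ht1, Finset.sum_range_one, Finset.sum_range_one]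
  refine Finset.sum_congr rfl (fun i hi => ?_)
  have h3 := h2 i hi
  unfold pt
  by_cases c1 : 0 < ((ω (m, 0)).2 i).1 ∧ ((0 : ℕ) : ℝ) + ((ω (m, 0)).2 i).1 ≤ s
  · have c2 : 0 < ((ω (m, 0)).2 i).1 ∧ ((0 : ℕ) : ℝ) + ((ω (m, 0)).2 i).1 ≤ t :=
      ⟨c1.1, c1.2.trans hst⟩
    rw [if_pos c1, if_pos c2]
  · rw [if_neg c1] at h3
    by_cases c2 : 0 < ((ω (m, 0)).2 i).1 ∧ ((0 : ℕ) : ℝ) + ((ω (m, 0)).2 i).1 ≤ t
    · rw [if_pos c2] at h3
      exact absurd h3 (by norm_num)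
    · rw [if_neg c1, if_neg c2]

theorem Nn_le (F : Finset ℤ) (t : ℝ) (ω : Om) : Nn F t ω ≤ ∑ m ∈ F, cnt m 1 ω := by
  unfold Nn cnt
  refine Finset.sum_le_sum (fun m _ => ?_)
  rw [Finset.sum_range_one]
  calc _ ≤ ∑ i ∈ Finset.range (ω (m, 0)).1, 1 := by
        refine Finset.sum_le_sum (fun i _ => ?_)
        split_ifs
        · exact le_rfl
        · exact Nat.zero_le _
    _ = (ω (m, 0)).1 := by simp

/-- The partial sums take few values on `[0,1]`. -/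
theorem exists_values (F : Finset ℤ) (ω : Om) : ∃ g : ℕ → ℝ, ∀ t : ℝ, t ≤ 1 →
    ∃ j ≤ ∑ m ∈ F, cnt m 1 ω, S F t ω = g j := by
  classical
  refine ⟨fun j => if h : ∃ t : ℝ, t ≤ 1 ∧ Nn F t ω = j then S F h.choose ω else 0, ?_⟩
  intro t ht
  refine ⟨Nn F t ω, Nn_le F t ω, ?_⟩
  have h : ∃ t' : ℝ, t' ≤ 1 ∧ Nn F t' ω = Nn F t ω := ⟨t, ht, rfl⟩
  show S F t ω = dite (∃ t' : ℝ, t' ≤ 1 ∧ Nn F t' ω = Nn F t ω) (fun h => S F h.choose ω) (fun _ => 0)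
  rw [dif_pos h]
  obtain ⟨h1, h2⟩ := h.choose_spec
  rcases le_total t h.choose with hle | hle
  · exact S_eq_of_Nn hle h1 h2.symm
  · exact (S_eq_of_Nn hle ht h2).symm

/-- the total weight -/
noncomputable def W (ω : Om) : ℝ := ∑' m : ℤ, (cnt m 1 ω : ℝ) * wt m

theorem W_nonneg (ω : Om) : 0 ≤ W ω :=
  tsum_nonneg (fun m => mul_nonneg (Nat.cast_nonneg _) (wt_pos m).le)

theorem count_le {ω : Om} (hω : ω ∈ G) {M : ℕ} (hM : 1 ≤ M) :
    ((∑ m ∈ Finset.Ico (-(M : ℤ)) M, cnt m 1 ω : ℕ) : ℝ) ≤ 2 * (M : ℝ) ^ 2 * W ω := by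
  have hM' : (1 : ℝ) ≤ M := by exact_mod_cast hM
  have h1 : ∀ m ∈ Finset.Ico (-(M : ℤ)) M, (cnt m 1 ω : ℝ) ≤
      2 * (M : ℝ) ^ 2 * ((cnt m 1 ω : ℝ) * wt m) := by
    intro m hm
    rw [Finset.mem_Ico] at hm
    have h2 : (m : ℝ) ^ 2 ≤ (M : ℝ) ^ 2 := by
      rw [sq_le_sq, Nat.abs_cast, abs_le]
      constructor
      · exact_mod_cast hm.1
      · exact_mod_cast hm.2.le
    have h3 : 1 ≤ 2 * (M : ℝ) ^ 2 * wt m := by
      unfold wt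
      rw [mul_one_div, one_le_div (by positivity)]
      nlinarith
    calc (cnt m 1 ω : ℝ) = (cnt m 1 ω : ℝ) * 1 := (mul_one _).symm
      _ ≤ (cnt m 1 ω : ℝ) * (2 * (M : ℝ) ^ 2 * wt m) :=
          mul_le_mul_of_nonneg_left h3 (Nat.cast_nonneg _)
      _ = _ := by ring
  push_cast
  calc ∑ m ∈ Finset.Ico (-(M : ℤ)) M, (cnt m 1 ω : ℝ)
      ≤ ∑ m ∈ Finset.Ico (-(M : ℤ)) M, 2 * (M : ℝ) ^ 2 * ((cnt m 1 ω : ℝ) * wt m) :=
        Finset.sum_le_sum h1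
    _ = 2 * (M : ℝ) ^ 2 * ∑ m ∈ Finset.Ico (-(M : ℤ)) M, ((cnt m 1 ω : ℝ) * wt m) := by
        rw [Finset.mul_sum]
    _ ≤ 2 * (M : ℝ) ^ 2 * W ω := by
        apply mul_le_mul_of_nonneg_left _ (by positivity)
        exact (summable_cnt hω 1).sum_le_tsum _
          (fun m _ => mul_nonneg (Nat.cast_nonneg _) (wt_pos m).le)

theorem close {ω : Om} (hω : ω ∈ G) {M : ℕ} (hM : 1 ≤ M) {t : ℝ} (ht : t ≤ 1) :
    |X t ω - S (Finset.Ico (-(M : ℤ)) M) t ω| ≤ 5 * (1 / (M : ℝ) ^ 19) * W ω := by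
  rw [X_of_mem hω]
  have hs := summable_L hω t
  unfold S
  have e1 : ∑' m : ℤ, L m t ω - ∑ m ∈ Finset.Ico (-(M : ℤ)) M, L m t ω =
      ∑' m : ℤ, (if m ∈ Finset.Ico (-(M : ℤ)) M then 0 else L m t ω) := by
    have h1 : ∑ m ∈ Finset.Ico (-(M : ℤ)) M, L m t ω =
        ∑' m : ℤ, (if m ∈ Finset.Ico (-(M : ℤ)) M then L m t ω else 0) := by
      rw [tsum_eq_sum (s := Finset.Ico (-(M : ℤ)) M)]
      · exact Finset.sum_congr rfl (fun m hm => (if_pos hm).symm)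
      · intro m hm; exact if_neg hm
    have h2 : Summable (fun m : ℤ => (if m ∈ Finset.Ico (-(M : ℤ)) M then L m t ω else 0)) :=
      summable_of_ne_finset_zero (s := Finset.Ico (-(M : ℤ)) M) (fun m hm => if_neg hm)
    rw [h1, ← hs.tsum_sub h2]
    congr 1
    ext m
    split_ifs <;> ring
  rw [e1]
  unfold W
  rw [← tsum_mul_left, ← Real.norm_eq_abs]
  refine tsum_of_norm_bounded ((summable_cnt hω 1).mul_left _).hasSum (fun m => ?_)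
  by_cases hm : m ∈ Finset.Ico (-(M : ℤ)) M
  · rw [if_pos hm, norm_zero]
    have := wt_pos m
    positivity
  · rw [if_neg hm, Real.norm_eq_abs]
    have hm' : m < -(M : ℤ) ∨ (M : ℤ) ≤ m := by
      rw [Finset.mem_Ico] at hm
      omega
    exact (abs_L_le m (by rw [Nat.ceil_le]; push_cast; linarith) ω).trans (V_le hω hM hm' 1)

theorem no_measure {ω : Om} (hω : ω ∈ G) (μ : Measure (ℝ × ℝ)) [IsProbabilityMeasure μ]
    (Kc : Set (ℝ × ℝ))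
    (hK : Kc ⊆ {p : ℝ × ℝ | p.1 ∈ Set.Icc (0 : ℝ) 1 ∧ p.2 = X p.1 ω}) (hμ : μ Kcᶜ = 0) (C : ℝ)
    (hC : ∀ ξ : ℝ × ℝ, 1 ≤ ‖ξ‖ →
      ‖∫ p, Complex.exp (((ξ.1 * p.1 + ξ.2 * p.2 : ℝ) : ℂ) * Complex.I) ∂μ‖
        ≤ C * ‖ξ‖ ^ (-(1 / 2 : ℝ) / 2)) : False := by
  -- choose M large
  have hlim : Tendsto (fun M : ℕ => (2 * (M : ℝ) ^ 2 * W ω + 1) * (2 * (1 + |C|) *
      (1 / (M : ℝ) ^ 3))) atTop (𝓝 0) := by
    have h1 : Tendsto (fun M : ℕ => 1 / (M : ℝ)) atTop (𝓝 0) := tendsto_one_div_atTop_nhds_zero_nat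
    have h3 : Tendsto (fun M : ℕ => (1 / (M : ℝ)) ^ 3) atTop (𝓝 0) := by
      simpa using h1.pow 3
    have h4 : Tendsto (fun M : ℕ => 4 * W ω * (1 + |C|) * (1 / (M : ℝ)) +
        2 * (1 + |C|) * (1 / (M : ℝ)) ^ 3) atTop (𝓝 0) := by
      have := (h1.const_mul (4 * W ω * (1 + |C|))).add (h3.const_mul (2 * (1 + |C|)))
      simpa using this
    refine h4.congr' ?_
    filter_upwards [eventually_ge_atTop 1] with M hM
    have hM' : (M : ℝ) ≠ 0 := by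
      have : M ≠ 0 := by omega
      exact_mod_cast this
    field_simp
    ring
  have hev1 := hlim.eventually_lt_const (show (0 : ℝ) < 1 from one_pos)
  have hev2 : ∀ᶠ M : ℕ in atTop, 5 * W ω ≤ (M : ℝ) := by
    filter_upwards [eventually_ge_atTop ⌈5 * W ω⌉₊] with M hM
    exact (Nat.le_ceil _).trans (by exact_mod_cast hM)
  obtain ⟨M, ⟨hM1, hM2⟩, hM3⟩ := ((hev1.and hev2).and (eventually_ge_atTop 1)).exists
  have hM' : (1 : ℝ) ≤ M := by exact_mod_cast hM3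
  set δ : ℝ := 1 / (M : ℝ) ^ 3 with hδ
  have hδ0 : 0 < δ := by positivity
  have hδ1 : δ ≤ 1 := by
    rw [hδ, div_le_one (by positivity)]
    exact one_le_pow₀ hM'
  obtain ⟨g, hg⟩ := exists_values (Finset.Ico (-(M : ℤ)) M) ω
  set J : ℕ := ∑ m ∈ Finset.Ico (-(M : ℤ)) M, cnt m 1 ω with hJ
  have hrad : 5 * (1 / (M : ℝ) ^ 19) * W ω ≤ δ ^ 5 := by
    rw [hδ, div_pow, one_pow, ← pow_mul]
    have e : 5 * (1 / (M : ℝ) ^ 19) * W ω = (5 * W ω) / (M : ℝ) ^ 19 := by ring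
    rw [e, div_le_div_iff₀ (by positivity) (by positivity), one_mul]
    calc 5 * W ω * (M : ℝ) ^ (3 * 5) ≤ (M : ℝ) * (M : ℝ) ^ (3 * 5) :=
          mul_le_mul_of_nonneg_right hM2 (by positivity)
      _ = (M : ℝ) ^ 16 := by ring
      _ ≤ (M : ℝ) ^ 19 := pow_le_pow_right₀ hM' (by norm_num)
  have hcov : Kc ⊆ ⋃ j ∈ Finset.range (J + 1), {p : ℝ × ℝ | |p.2 - g j| ≤ δ ^ 5} := by
    intro p hp
    obtain ⟨hp1, hp2⟩ := hK hp
    obtain ⟨j, hj1, hj2⟩ := hg p.1 hp1.2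
    simp only [mem_iUnion, Finset.mem_range]
    refine ⟨j, by omega, ?_⟩
    change |p.2 - g j| ≤ δ ^ 5
    rw [hp2, ← hj2]
    exact (close hω hM3 hp1.2).trans hrad
  have h1 : μ.real Kc = 1 := by
    have h2 : 1 ≤ μ Kc + μ Kcᶜ := by
      calc (1 : ℝ≥0∞) = μ univ := measure_univ.symm
        _ = μ (Kc ∪ Kcᶜ) := by rw [union_compl_self]
        _ ≤ _ := measure_union_le _ _
    rw [hμ, add_zero] at h2
    have h3 : μ Kc = 1 := le_antisymm prob_le_one h2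
    rw [Measure.real, h3]
    simp
  have h2 : (1 : ℝ) ≤ (J + 1) * (2 * (1 + |C|) * δ) := by
    calc (1 : ℝ) = μ.real Kc := h1.symm
      _ ≤ μ.real (⋃ j ∈ Finset.range (J + 1), {p : ℝ × ℝ | |p.2 - g j| ≤ δ ^ 5}) :=
          measureReal_mono hcov (measure_ne_top _ _)
      _ ≤ ∑ j ∈ Finset.range (J + 1), μ.real {p : ℝ × ℝ | |p.2 - g j| ≤ δ ^ 5} :=
          measureReal_biUnion_finset_le _ _
      _ ≤ ∑ j ∈ Finset.range (J + 1), (2 * (1 + |C|) * δ) :=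
          Finset.sum_le_sum (fun j _ => strip μ C hC hδ0 hδ1 (g j))
      _ = (J + 1) * (2 * (1 + |C|) * δ) := by
          rw [Finset.sum_const, Finset.card_range, nsmul_eq_mul]
          push_cast
          ring
  have h3 := count_le hω hM3
  have h4 : ((J : ℝ) + 1) * (2 * (1 + |C|) * δ) ≤
      (2 * (M : ℝ) ^ 2 * W ω + 1) * (2 * (1 + |C|) * δ) := by
    apply mul_le_mul_of_nonneg_right _ (by positivity)
    linarith
  linarith

end Pool.Agent.Y978.ST
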