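import Pool.Agent.Y978.ST.Expo

set_option autoImplicit false

open MeasureTheory ProbabilityTheory Set Filter Topology
open scoped NNReal ENNReal

namespace Pool.Agent.Y978.ST

theorem joint {n : ℕ} {t : Fin (n + 1) → ℝ} (ht : Monotone t) (ht0 : 0 ≤ t 0) (θ : Fin n → ℝ) :
    ∫ ω, Complex.exp (∑ j : Fin n,
        θ j * Complex.I * ((X (t j.succ) ω - X (t j.castSucc) ω : ℝ) : ℂ)) ∂(PP rt) =
      ∏ j : Fin n, Complex.exp (-(((t j.succ - t j.castSucc) * |θ j| ^ (1 / 21 : ℝ) : ℝ) : ℂ)) := by
  have h1 : Tendsto (fun F : Finset ℤ => ∫ ω, Complex.exp (∑ j : Fin n,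
        θ j * Complex.I * ((S F (t j.succ) ω - S F (t j.castSucc) ω : ℝ) : ℂ)) ∂(PP rt)) atTop
      (𝓝 (∫ ω, Complex.exp (∑ j : Fin n,
        θ j * Complex.I * ((X (t j.succ) ω - X (t j.castSucc) ω : ℝ) : ℂ)) ∂(PP rt))) := by
    apply tendsto_integral_filter_of_dominated_convergence (fun _ => (1 : ℝ))
    · refine Eventually.of_forall (fun F => ?_)
      apply Measurable.aestronglyMeasurable
      apply Complex.measurable_exp.comp
      apply Finset.measurable_sum
      intro j _
      apply Measurable.const_mul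
      exact Complex.measurable_ofReal.comp ((measurable_S F _).sub (measurable_S F _))
    · refine Eventually.of_forall (fun F => ae_of_all _ (fun ω => ?_))
      rw [Complex.norm_exp, Real.exp_le_one_iff, Complex.re_sum]
      apply Finset.sum_nonpos
      intro j _
      simp
    · exact integrable_const _
    · filter_upwards [ae_G rt] with ω hω
      apply (Complex.continuous_exp.tendsto _).comp
      apply tendsto_finsetSum
      intro j _
      apply Tendsto.const_mul
      exact (Complex.continuous_ofReal.tendsto _).comp ((tendsto_S hω _).sub (tendsto_S hω _))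
  have h2 : Tendsto (fun F : Finset ℤ => ∫ ω, Complex.exp (∑ j : Fin n,
        θ j * Complex.I * ((S F (t j.succ) ω - S F (t j.castSucc) ω : ℝ) : ℂ)) ∂(PP rt)) atTop
      (𝓝 (∏ j : Fin n, Complex.exp (-(((t j.succ - t j.castSucc) *
        |θ j| ^ (1 / 21 : ℝ) : ℝ) : ℂ)))) := by
    simp_rw [charS rt _ ht ht0 θ]
    rw [← Complex.exp_sum]
    apply (Complex.continuous_exp.tendsto _).comp
    apply tendsto_finsetSum
    intro j _
    have h3 := (tendsto_ex (θ j)).const_mul (((t j.succ - t j.castSucc : ℝ) : ℂ))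
    convert h3 using 2
    push_cast
    ring
  exact tendsto_nhds_unique h1 h2

theorem single {a b : ℝ} (ha : 0 ≤ a) (hab : a ≤ b) (θ : ℝ) :
    ∫ ω, Complex.exp (((θ * (X b ω - X a ω) : ℝ) : ℂ) * Complex.I) ∂(PP rt)
      = ((Real.exp (-(b - a) * |θ| ^ (1 / 21 : ℝ)) : ℝ) : ℂ) := by
  have h := joint (n := 1) (t := ![a, b]) (by
    intro i j hij
    fin_cases i <;> fin_cases j <;> simp at hij ⊢
    exact hab) (by simpa using ha) (fun _ => θ)
  simp only [Finset.univ_unique, Fin.default_eq_zero, Fin.isValue, Finset.prod_singleton,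
    Fin.succ_zero_eq_one, Matrix.cons_val_one, Matrix.cons_val_fin_one, Fin.castSucc_zero,
    Matrix.cons_val_zero, Finset.sum_singleton] at h
  rw [Complex.ofReal_exp]
  convert h using 2
  · ext ω
    congr 1
    push_cast
    ring
  · push_cast
    ring

theorem charFun_single {a b : ℝ} (ha : 0 ≤ a) (hab : a ≤ b) (θ : ℝ) :
    charFun ((PP rt).map (fun ω => X b ω - X a ω)) θ =
      Complex.exp (-(((b - a) * |θ| ^ (1 / 21 : ℝ) : ℝ) : ℂ)) := by
  have hm : Measurable (fun ω => X b ω - X a ω) := (measurable_X b).sub (measurable_X a)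
  rw [charFun_apply, integral_map hm.aemeasurable (by fun_prop)]
  have h := single ha hab θ
  rw [Complex.ofReal_exp] at h
  have e : (((-(b - a) * |θ| ^ (1 / 21 : ℝ) : ℝ)) : ℂ) =
      -(((b - a) * |θ| ^ (1 / 21 : ℝ) : ℝ) : ℂ) := by push_cast; ring
  rw [e] at h
  rw [← h]
  congr with ω

theorem X_indep (n : ℕ) (t : Fin (n + 1) → ℝ) (ht0 : 0 ≤ t 0) (ht : Monotone t) :
    iIndepFun (fun (i : Fin n) (ω : Om) => X (t i.succ) ω - X (t i.castSucc) ω) (PP rt) := by
  have hm : ∀ i : Fin n, AEMeasurable (fun ω => X (t i.succ) ω - X (t i.castSucc) ω)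
      (PP rt) := fun i => ((measurable_X _).sub (measurable_X _)).aemeasurable
  rw [iIndepFun_iff_charFun_pi hm]
  intro θ
  have h1 := joint ht ht0 (fun j => θ j)
  have h2 : ∏ j : Fin n, Complex.exp (-(((t j.succ - t j.castSucc) *
      |θ j| ^ (1 / 21 : ℝ) : ℝ) : ℂ)) = ∏ j : Fin n, charFun ((PP rt).map
        (fun ω => X (t j.succ) ω - X (t j.castSucc) ω)) (θ j) := by
    refine Finset.prod_congr rfl (fun j _ => ?_)
    rw [charFun_single (ht0.trans (ht (Fin.zero_le _))) (ht (Fin.castSucc_le_succ j))]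
  rw [← h2, ← h1, charFun_apply, integral_map]
  · congr with ω
    congr 1
    rw [PiLp.inner_apply]
    push_cast
    rw [Finset.sum_mul]
    refine Finset.sum_congr rfl (fun j _ => ?_)
    simp
    ring
  · apply Measurable.aemeasurable
    apply (WithLp.measurable_toLp 2 _).comp
    exact measurable_pi_lambda _ (fun j => (measurable_X _).sub (measurable_X _))
  · fun_prop

end Pool.Agent.Y978.ST
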