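import Pool.Agent.W850.HT.Char

set_option autoImplicit false

open MeasureTheory ProbabilityTheory Set Filter Topology
open scoped NNReal ENNReal

namespace Pool.Agent.Y978.ST

open Pool.Agent.W850.HT

/-- One marked block: a number of points and a sequence of pairs (position, mark). -/
abbrev MBlk := ℕ × (ℕ → ℝ × ℝ)

/-- The law of (position, mark): uniform on the square `(0,1]²`. -/
noncomputable def sq : Measure (ℝ × ℝ) := unif.prod unif

instance : IsProbabilityMeasure sq := by unfold sq; infer_instance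

/-- The law of a marked block of rate `r`. -/
noncomputable def mblk (r : ℝ≥0) : Measure MBlk :=
  (poissonMeasure r).prod (Measure.infinitePi fun _ : ℕ => sq)

instance (r : ℝ≥0) : IsProbabilityMeasure (mblk r) := by unfold mblk; infer_instance

theorem measurable_mblk {g : ℝ × ℝ → ℂ} (hg : Measurable g) :
    Measurable (fun b : MBlk => ∏ i ∈ Finset.range b.1, g (b.2 i)) := by
  apply measurable_from_prod_countable_right
  intro k
  simp only
  exact Finset.measurable_prod (Finset.range k) (fun i _ => hg.comp (measurable_pi_apply i))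

theorem integral_mblk (r : ℝ≥0) {g : ℝ × ℝ → ℂ} (hg : Measurable g) (hb : ∀ u, ‖g u‖ ≤ 1) :
    ∫ b, ∏ i ∈ Finset.range b.1, g (b.2 i) ∂(mblk r) =
      Complex.exp (r * ((∫ u, g u ∂sq) - 1)) := by
  have hint : Integrable (fun b : MBlk => ∏ i ∈ Finset.range b.1, g (b.2 i)) (mblk r) := by
    refine Integrable.of_bound (measurable_mblk hg).aestronglyMeasurable 1 (ae_of_all _ ?_)
    intro b
    rw [norm_prod]
    exact Finset.prod_le_one (fun i _ => norm_nonneg _) (fun i _ => hb _)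
  rw [mblk] at hint ⊢
  rw [integral_prod _ hint]
  have h1 : ∀ k : ℕ, ∫ U, ∏ i ∈ Finset.range k, g (U i) ∂(Measure.infinitePi fun _ : ℕ => sq) =
      (∫ u, g u ∂sq) ^ k := by
    intro k
    rw [integral_prod_infinitePi (fun _ : ℕ => sq) (Finset.range k) (fun _ => g) (fun _ => hg)]
    simp
  simp_rw [h1]
  rw [integral_poissonMeasure r]
  calc ∑' n : ℕ, (Real.exp (-r) * r ^ n / (n.factorial)) • (∫ u, g u ∂sq) ^ n
      = ∑' n : ℕ, (Real.exp (-r) : ℂ) * ((r * (∫ u, g u ∂sq)) ^ n / n.factorial) := by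
        congr with n
        rw [Complex.real_smul]
        push_cast
        rw [mul_pow]
        ring
    _ = (Real.exp (-r) : ℂ) * ∑' n : ℕ, ((r * (∫ u, g u ∂sq)) ^ n / n.factorial) := tsum_mul_left
    _ = (Real.exp (-r) : ℂ) * Complex.exp (r * (∫ u, g u ∂sq)) := by
        rw [(NormedSpace.expSeries_div_hasSum_exp (r * (∫ u, g u ∂sq))).tsum_eq,
          Complex.exp_eq_exp_ℂ]
    _ = _ := by
        rw [Complex.ofReal_exp, ← Complex.exp_add]
        push_cast
        ring_nf

/-- The sample space: (level, time block) ↦ marked block. -/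
abbrev Om := ℤ × ℕ → MBlk

/-- The law: all blocks are independent, of rate `r`. -/
noncomputable def PP (r : ℝ≥0) : Measure Om :=
  Measure.infinitePi (fun _ : ℤ × ℕ => mblk r)

instance (r : ℝ≥0) : IsProbabilityMeasure (PP r) := by unfold PP; infer_instance

theorem integral_PP (r : ℝ≥0) (S : Finset (ℤ × ℕ)) {g : ℤ × ℕ → ℝ × ℝ → ℂ}
    (hg : ∀ p, Measurable (g p)) (hb : ∀ p u, ‖g p u‖ ≤ 1) :
    ∫ ω : Om, ∏ p ∈ S, ∏ i ∈ Finset.range (ω p).1, g p ((ω p).2 i) ∂(PP r) =
      ∏ p ∈ S, Complex.exp (r * ((∫ u, g p u ∂sq) - 1)) := by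
  rw [PP, integral_prod_infinitePi (fun _ : ℤ × ℕ => mblk r) S
    (fun p b => ∏ i ∈ Finset.range b.1, g p (b.2 i)) (fun p => measurable_mblk (hg p))]
  exact Finset.prod_congr rfl (fun p _ => integral_mblk _ (hg p) (hb p))

theorem hasSum_poisson_mean (l : ℝ≥0) :
    HasSum (fun n : ℕ => Real.exp (-l) * l ^ n / n.factorial * (n : ℝ)) l := by
  rw [← hasSum_nat_add_iff' 1]
  simp only [Finset.range_one, Finset.sum_singleton, CharP.cast_eq_zero, mul_zero, sub_zero]
  have h := (hasSum_one_poissonMeasure l).mul_left (l : ℝ)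
  rw [mul_one] at h
  have e : (fun n : ℕ => Real.exp (-l) * (l : ℝ) ^ (n + 1) / (n + 1).factorial * ((n + 1 : ℕ) : ℝ))
      = fun n : ℕ => (l : ℝ) * (Real.exp (-l) * (l : ℝ) ^ n / n.factorial) := by
    ext n
    rw [Nat.factorial_succ]
    push_cast
    field_simp
    ring
  rw [e]
  exact h

theorem lintegral_poisson (l : ℝ≥0) :
    ∫⁻ n : ℕ, (n : ℝ≥0∞) ∂(poissonMeasure l) = l := by
  have hint : Integrable (fun n : ℕ => (n : ℝ)) (poissonMeasure l) := by
    rw [integrable_poissonMeasure_iff]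
    have := (hasSum_poisson_mean l).summable
    refine this.congr (fun n => ?_)
    rw [Real.norm_of_nonneg (Nat.cast_nonneg _)]
  have h2 : ∫ n : ℕ, (n : ℝ) ∂(poissonMeasure l) = l := by
    rw [integral_poissonMeasure' hint]
    simp only [smul_eq_mul]
    exact (hasSum_poisson_mean l).tsum_eq
  have h3 := ofReal_integral_eq_lintegral_ofReal hint (ae_of_all _ (fun n => Nat.cast_nonneg _))
  rw [h2, ENNReal.ofReal_coe_nnreal] at h3
  rw [h3]
  simp

/-- mean number of points in a block -/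
theorem lintegral_count (r : ℝ≥0) (p : ℤ × ℕ) :
    ∫⁻ ω : Om, ((ω p).1 : ℝ≥0∞) ∂(PP r) = r := by
  have h1 : (PP r).map (fun ω : Om => ω p) = mblk r :=
    Measure.infinitePi_map_eval (fun _ : ℤ × ℕ => mblk r) p
  have hm : Measurable (fun b : MBlk => (b.1 : ℝ≥0∞)) :=
    (measurable_from_nat (f := fun n : ℕ => (n : ℝ≥0∞))).comp measurable_fst
  calc ∫⁻ ω : Om, ((ω p).1 : ℝ≥0∞) ∂(PP r) = ∫⁻ b, (b.1 : ℝ≥0∞) ∂((PP r).map (fun ω : Om => ω p)) := by
        rw [lintegral_map hm (measurable_pi_apply p)]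
    _ = ∫⁻ b, (b.1 : ℝ≥0∞) ∂(mblk r) := by rw [h1]
    _ = ∫⁻ n : ℕ, (n : ℝ≥0∞) ∂(poissonMeasure r) := by
        rw [mblk, lintegral_prod _ hm.aemeasurable]
        simp
    _ = r := lintegral_poisson r

end Pool.Agent.Y978.ST
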