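import Pool.Agent.Y978.ST.Proc

set_option autoImplicit false

open MeasureTheory ProbabilityTheory Set Filter Topology
open scoped NNReal ENNReal

namespace Pool.Agent.Y978.ST

open Pool.Agent.W850.HT (unif step cexp_step ioc_unique measurable_step step_re_le
  sum_integral_unif intervalIntegrable_indicator integral_indicator_Ioc)

theorem pt_sub (m : ℤ) (k i : ℕ) {s t : ℝ} (hst : s ≤ t) (ω : Om) :
    pt m k i t ω - pt m k i s ω =
      if 0 < ((ω (m, k)).2 i).1 ∧ k + ((ω (m, k)).2 i).1 ∈ Ioc s t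
        then jmp (m + ((ω (m, k)).2 i).2) else 0 := by
  unfold pt
  by_cases h0 : 0 < ((ω (m, k)).2 i).1
  · by_cases h1 : k + ((ω (m, k)).2 i).1 ≤ s
    · rw [if_pos ⟨h0, h1.trans hst⟩, if_pos ⟨h0, h1⟩, if_neg (fun h => absurd h.2.1 (not_lt.2 h1)),
        sub_self]
    · by_cases h2 : k + ((ω (m, k)).2 i).1 ≤ t
      · rw [if_pos ⟨h0, h2⟩, if_neg (fun h => h1 h.2), if_pos ⟨h0, not_le.1 h1, h2⟩, sub_zero]
      · rw [if_neg (fun h => h2 h.2), if_neg (fun h => h1 h.2), if_neg (fun h => h2 h.2.2), sub_self]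
  · rw [if_neg (fun h => h0 h.1), if_neg (fun h => h0 h.1), if_neg (fun h => h0 h.1), sub_self]

/-- The function on marked blocks used for the increments. -/
noncomputable def gf {n : ℕ} (t : Fin (n + 1) → ℝ) (θ : Fin n → ℝ) (p : ℤ × ℕ) (x : ℝ × ℝ) : ℂ :=
  if 0 < x.1 then Complex.exp (step t (fun j => θ j * Complex.I * (jmp (p.1 + x.2) : ℝ))
    (p.2 + x.1)) else 1

theorem measurable_gf {n : ℕ} (t : Fin (n + 1) → ℝ) (θ : Fin n → ℝ) (p : ℤ × ℕ) :
    Measurable (gf t θ p) := by
  unfold gf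
  apply Measurable.ite (measurableSet_Ioi.preimage measurable_fst) _ measurable_const
  apply Complex.measurable_exp.comp
  unfold step
  apply Finset.measurable_sum
  intro j _
  apply Measurable.mul
  · apply Measurable.const_mul
    exact Complex.measurable_ofReal.comp (measurable_jmp.comp (measurable_const.add measurable_snd))
  · exact (measurable_const.indicator measurableSet_Ioc).comp (measurable_const.add measurable_fst)

theorem norm_gf {n : ℕ} (t : Fin (n + 1) → ℝ) (θ : Fin n → ℝ) (p : ℤ × ℕ) (x : ℝ × ℝ) :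
    ‖gf t θ p x‖ ≤ 1 := by
  unfold gf
  split_ifs
  · rw [Complex.norm_exp, Real.exp_le_one_iff]
    apply step_re_le
    intro j
    simp
  · simp

/-- the exponent of one level -/
noncomputable def ex (θ : ℝ) (m : ℤ) : ℂ :=
  ∫ v, (Complex.exp (θ * Complex.I * (jmp (m + v) : ℝ)) - 1) ∂unif

theorem norm_cexp_I (θ x : ℝ) : ‖Complex.exp (θ * Complex.I * (x : ℝ))‖ = 1 := by
  have : (θ * Complex.I * (x : ℝ) : ℂ) = ((θ * x : ℝ) : ℂ) * Complex.I := by push_cast; ring
  rw [this, Complex.norm_exp_ofReal_mul_I]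

theorem integrable_exv (θ : ℝ) (m : ℤ) :
    Integrable (fun v : ℝ => Complex.exp (θ * Complex.I * (jmp (m + v) : ℝ)) - 1) unif := by
  refine Integrable.sub ?_ (integrable_const _)
  refine Integrable.of_bound ?_ 1 (ae_of_all _ (fun v => ?_))
  · apply Measurable.aestronglyMeasurable
    apply Complex.measurable_exp.comp
    apply Measurable.const_mul
    exact Complex.measurable_ofReal.comp (measurable_jmp.comp (measurable_const.add measurable_id))
  · rw [norm_cexp_I]

theorem integral_gf {n : ℕ} {t : Fin (n + 1) → ℝ} (ht : Monotone t) (θ : Fin n → ℝ)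
    (p : ℤ × ℕ) : (∫ x, gf t θ p x ∂sq) - 1 = ∑ j, ex (θ j) p.1 *
      ∫ u, (Ioc (t j.castSucc) (t j.succ)).indicator (fun _ => (1 : ℂ)) (p.2 + u) ∂unif := by
  have hae : ∀ᵐ x ∂sq, 0 < x.1 := by
    have e4 : sq.map Prod.fst = unif := by
      unfold sq; rw [Measure.map_fst_prod]; simp
    have h0 : ∀ᵐ x ∂unif, 0 < x := by
      unfold unif
      filter_upwards [ae_restrict_mem measurableSet_Ioc] with x hx using hx.1
    rw [← e4] at h0
    exact ae_of_ae_map measurable_fst.aemeasurable h0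
  have h1 : (∫ x, gf t θ p x ∂sq) =
      ∫ x, (1 + ∑ j, (Ioc (t j.castSucc) (t j.succ)).indicator (fun _ => (1 : ℂ)) (p.2 + x.1) *
        (Complex.exp (θ j * Complex.I * (jmp (p.1 + x.2) : ℝ)) - 1)) ∂sq := by
    apply integral_congr_ae
    filter_upwards [hae] with x hx
    simp only [gf]
    rw [if_pos hx]
    have := cexp_step ht (fun j => θ j * Complex.I * (jmp (p.1 + x.2) : ℝ)) (p.2 + x.1)
    have h2 : Complex.exp (step t (fun j => (θ j : ℂ) * Complex.I * (jmp (p.1 + x.2) : ℝ))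
        (p.2 + x.1)) = 1 + (Complex.exp (step t (fun j => (θ j : ℂ) * Complex.I *
          (jmp (p.1 + x.2) : ℝ)) (p.2 + x.1)) - 1) := by ring
    rw [h2, this]
    congr 1
    exact Finset.sum_congr rfl (fun j _ => mul_comm _ _)
  have h2 : ∀ j : Fin n, Integrable (fun u : ℝ =>
      (Ioc (t j.castSucc) (t j.succ)).indicator (fun _ => (1 : ℂ)) ((p.2 : ℝ) + u)) unif := by
    intro j
    refine Integrable.of_bound ?_ 1 (ae_of_all _ ?_)
    · apply Measurable.aestronglyMeasurable
      exact (measurable_const.indicator measurableSet_Ioc).comp (measurable_const.add measurable_id)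
    · intro u
      simp only [indicator]
      split_ifs <;> simp
  have h3 : ∀ j : Fin n, Integrable (fun x : ℝ × ℝ =>
      (Ioc (t j.castSucc) (t j.succ)).indicator (fun _ => (1 : ℂ)) ((p.2 : ℝ) + x.1) *
        (Complex.exp (θ j * Complex.I * (jmp (p.1 + x.2) : ℝ)) - 1)) sq := by
    intro j
    exact (h2 j).mul_prod (integrable_exv (θ j) p.1)
  rw [h1, integral_add (integrable_const _) (integrable_finsetSum _ (fun j _ => h3 j)),
    integral_finsetSum _ (fun j _ => h3 j)]
  simp only [integral_const, probReal_univ, one_smul, add_sub_cancel_left]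
  refine Finset.sum_congr rfl (fun j _ => ?_)
  unfold sq
  rw [integral_prod_mul (fun u : ℝ => (Ioc (t j.castSucc) (t j.succ)).indicator
    (fun _ => (1 : ℂ)) ((p.2 : ℝ) + u)) (fun v : ℝ =>
    (Complex.exp (θ j * Complex.I * (jmp (p.1 + v) : ℝ)) - 1))]
  rw [mul_comm]
  rfl

theorem charS (r : ℝ≥0) (F : Finset ℤ) {n : ℕ} {t : Fin (n + 1) → ℝ} (ht : Monotone t)
    (ht0 : 0 ≤ t 0) (θ : Fin n → ℝ) :
    ∫ ω, Complex.exp (∑ j : Fin n,
        θ j * Complex.I * ((S F (t j.succ) ω - S F (t j.castSucc) ω : ℝ) : ℂ)) ∂(PP r) =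
      Complex.exp (∑ j : Fin n, ((t j.succ - t j.castSucc : ℝ) : ℂ) * (r * ∑ m ∈ F, ex (θ j) m)) := by
  set B : ℕ := ⌈t (Fin.last n)⌉₊ with hB
  have hBj : ∀ j : Fin (n + 1), ⌈t j⌉₊ ≤ B := fun j => Nat.ceil_mono (ht (Fin.le_last j))
  have key : ∀ ω : Om, Complex.exp (∑ j : Fin n,
        θ j * Complex.I * ((S F (t j.succ) ω - S F (t j.castSucc) ω : ℝ) : ℂ)) =
      ∏ p ∈ F ×ˢ Finset.range B, ∏ i ∈ Finset.range (ω p).1, gf t θ p ((ω p).2 i) := by
    intro ω
    have h1 : ∀ j : Fin n, (θ j : ℂ) * Complex.I *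
        ((S F (t j.succ) ω - S F (t j.castSucc) ω : ℝ) : ℂ) =
        ∑ m ∈ F, ∑ k ∈ Finset.range B, ∑ i ∈ Finset.range (ω (m, k)).1,
          (if 0 < ((ω (m, k)).2 i).1 then θ j * Complex.I * (jmp (m + ((ω (m, k)).2 i).2) : ℝ) *
              (Ioc (t j.castSucc) (t j.succ)).indicator (fun _ => (1 : ℂ))
                (k + ((ω (m, k)).2 i).1) else 0) := by
      intro j
      unfold S
      rw [← Finset.sum_sub_distrib, Complex.ofReal_sum, Finset.mul_sum]
      refine Finset.sum_congr rfl (fun m _ => ?_)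
      rw [L_eq m (hBj j.succ), L_eq m (hBj j.castSucc), ← Finset.sum_sub_distrib,
        Complex.ofReal_sum, Finset.mul_sum]
      refine Finset.sum_congr rfl (fun k _ => ?_)
      rw [← Finset.sum_sub_distrib, Complex.ofReal_sum, Finset.mul_sum]
      refine Finset.sum_congr rfl (fun i _ => ?_)
      rw [pt_sub m k i (ht (Fin.castSucc_le_succ j))]
      by_cases h0 : 0 < ((ω (m, k)).2 i).1
      · rw [if_pos h0]
        by_cases h3 : (k + ((ω (m, k)).2 i).1) ∈ Ioc (t j.castSucc) (t j.succ)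
        · rw [indicator_of_mem h3, if_pos ⟨h0, h3⟩, mul_one]
        · rw [indicator_of_notMem h3, if_neg (fun h => h3 h.2), Complex.ofReal_zero, mul_zero,
            mul_zero]
      · rw [if_neg h0, if_neg (fun h => h0 h.1), Complex.ofReal_zero, mul_zero]
    simp_rw [h1]
    rw [Finset.sum_comm, Complex.exp_sum, Finset.prod_product]
    refine Finset.prod_congr rfl (fun m _ => ?_)
    rw [Finset.sum_comm, Complex.exp_sum]
    refine Finset.prod_congr rfl (fun k _ => ?_)
    rw [Finset.sum_comm, Complex.exp_sum]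
    refine Finset.prod_congr rfl (fun i _ => ?_)
    unfold gf
    by_cases h0 : 0 < ((ω (m, k)).2 i).1
    · simp only [if_pos h0]; rfl
    · simp only [if_neg h0]; simp
  simp_rw [key]
  rw [integral_PP r _ (measurable_gf t θ) (norm_gf t θ), ← Complex.exp_sum]
  congr 1
  rw [Finset.sum_product]
  simp_rw [integral_gf ht θ]
  have h6 : ∀ m ∈ F, ∑ k ∈ Finset.range B, (r : ℂ) * ∑ j : Fin n, ex (θ j) m *
      ∫ u, (Ioc (t j.castSucc) (t j.succ)).indicator (fun _ => (1 : ℂ)) ((k : ℝ) + u) ∂unif =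
      ∑ j : Fin n, ((t j.succ - t j.castSucc : ℝ) : ℂ) * (r * ex (θ j) m) := by
    intro m _
    rw [← Finset.mul_sum, Finset.sum_comm, Finset.mul_sum]
    refine Finset.sum_congr rfl (fun j _ => ?_)
    rw [← Finset.mul_sum]
    have h5 := sum_integral_unif (f := (Ioc (t j.castSucc) (t j.succ)).indicator
      (fun _ => (1 : ℂ))) B (fun a b => intervalIntegrable_indicator _ _ a b)
    rw [h5, integral_indicator_Ioc (ht0.trans (ht (Fin.zero_le _)))
      (ht (Fin.castSucc_le_succ j)) ((ht (Fin.le_last j.succ)).trans (Nat.le_ceil _))]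
    ring
  rw [Finset.sum_congr rfl h6, Finset.sum_comm]
  refine Finset.sum_congr rfl (fun j _ => ?_)
  rw [Finset.mul_sum, Finset.mul_sum]

end Pool.Agent.Y978.ST
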