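import Pool.Agent.Y978.ST.CharS

set_option autoImplicit false

open MeasureTheory ProbabilityTheory Set Filter Topology
open scoped NNReal ENNReal ComplexConjugate

namespace Pool.Agent.Y978.ST

open Pool.Agent.W850.HT (unif)

/-- the integrand of the characteristic exponent -/
noncomputable def Ph (θ y : ℝ) : ℂ := Complex.exp (θ * Complex.I * (jmp y : ℝ)) - 1

theorem measurable_Ph (θ : ℝ) : Measurable (Ph θ) := by
  unfold Ph
  apply Measurable.sub_const
  apply Complex.measurable_exp.comp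
  apply Measurable.const_mul
  exact Complex.measurable_ofReal.comp measurable_jmp

theorem norm_Ph_le_two (θ y : ℝ) : ‖Ph θ y‖ ≤ 2 := by
  unfold Ph
  refine (norm_sub_le _ _).trans ?_
  rw [norm_cexp_I, norm_one]
  norm_num

theorem norm_Ph_le (θ y : ℝ) : ‖Ph θ y‖ ≤ |θ| * |jmp y| := by
  unfold Ph
  have : (θ * Complex.I * (jmp y : ℝ) : ℂ) = Complex.I * ((θ * jmp y : ℝ) : ℂ) := by
    push_cast; ring
  rw [this, ← abs_mul]
  have h := Real.norm_exp_I_mul_ofReal_sub_one_le (x := θ * jmp y)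
  simpa [Real.norm_eq_abs] using h

theorem norm_Ph_bound (θ y : ℝ) : ‖Ph θ y‖ ≤ (4 + 2 * |θ|) * (1 + y ^ 2)⁻¹ := by
  have hpos : 0 < 1 + y ^ 2 := by positivity
  rw [← div_eq_mul_inv, le_div_iff₀ hpos]
  by_cases hy : |y| ≤ 1
  · have h1 : y ^ 2 ≤ 1 := by rw [← sq_abs]; exact pow_le_one₀ (abs_nonneg _) hy
    calc ‖Ph θ y‖ * (1 + y ^ 2) ≤ 2 * 2 :=
          mul_le_mul (norm_Ph_le_two θ y) (by linarith) hpos.le (by norm_num)
      _ ≤ 4 + 2 * |θ| := by linarith [abs_nonneg θ]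
  · have hy' : 1 < |y| := not_le.1 hy
    have h2 : |jmp y| * (1 + y ^ 2) ≤ 2 := by
      unfold jmp
      rw [abs_inv, abs_pow, ← sq_abs y, inv_mul_le_iff₀ (by positivity)]
      have h3 : |y| ^ 2 ≤ |y| ^ 21 := pow_le_pow_right₀ hy'.le (by norm_num)
      have h4 : 1 ≤ |y| ^ 21 := one_le_pow₀ hy'.le
      linarith
    calc ‖Ph θ y‖ * (1 + y ^ 2) ≤ (|θ| * |jmp y|) * (1 + y ^ 2) :=
          mul_le_mul_of_nonneg_right (norm_Ph_le θ y) hpos.le
      _ = |θ| * (|jmp y| * (1 + y ^ 2)) := by ring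
      _ ≤ |θ| * 2 := mul_le_mul_of_nonneg_left h2 (abs_nonneg _)
      _ ≤ _ := by linarith

theorem integrable_Ph (θ : ℝ) : Integrable (Ph θ) := by
  refine Integrable.mono' (integrable_inv_one_add_sq.const_mul (4 + 2 * |θ|))
    (measurable_Ph θ).aestronglyMeasurable (ae_of_all _ (fun y => norm_Ph_bound θ y))

theorem ex_eq (θ : ℝ) (m : ℤ) : ex θ m = ∫ y in Ioc (m : ℝ) (m + 1), Ph θ y := by
  unfold ex unif
  have h := intervalIntegral.integral_comp_add_left (a := 0) (b := 1) (Ph θ) (m : ℝ)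
  rw [intervalIntegral.integral_of_le zero_le_one, add_zero,
    intervalIntegral.integral_of_le (by linarith)] at h
  exact h

theorem hasSum_ex (θ : ℝ) : HasSum (ex θ) (∫ y, Ph θ y) := by
  have h := hasSum_integral_iUnion (μ := (volume : Measure ℝ)) (f := Ph θ)
    (s := fun m : ℤ => Ioc (m : ℝ) (m + 1)) (fun m => measurableSet_Ioc)
    (pairwise_disjoint_Ioc_intCast ℝ) (integrable_Ph θ).integrableOn
  rw [iUnion_Ioc_intCast, setIntegral_univ] at h
  exact h.congr_fun (fun m => ex_eq θ m) |> fun h => h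

/-- the constant of the characteristic exponent -/
noncomputable def K : ℝ := ∫ y : ℝ, (1 - Real.cos (jmp y))

theorem integrable_cos : Integrable (fun y : ℝ => 1 - Real.cos (jmp y)) := by
  refine Integrable.mono' (integrable_inv_one_add_sq.const_mul (4 + 2 * |(1 : ℝ)|)) ?_
    (ae_of_all _ (fun y => ?_))
  · exact (measurable_const.sub (Real.measurable_cos.comp measurable_jmp)).aestronglyMeasurable
  · refine le_trans ?_ (norm_Ph_bound 1 y)
    have h1 : 1 - Real.cos (jmp y) = -(Ph 1 y).re := by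
      unfold Ph
      have : ((1 : ℝ) * Complex.I * (jmp y : ℝ) : ℂ) = ((jmp y : ℝ) : ℂ) * Complex.I := by
        push_cast; ring
      rw [this, Complex.sub_re, Complex.exp_ofReal_mul_I_re]
      simp
    rw [h1, norm_neg, Real.norm_eq_abs]
    exact Complex.abs_re_le_norm _

theorem K_pos : 0 < K := by
  unfold K
  rw [integral_pos_iff_support_of_nonneg]
  · have hsub : Ioo (1 : ℝ) 2 ⊆ Function.support (fun y : ℝ => 1 - Real.cos (jmp y)) := by
      intro y hy
      simp only [Function.mem_support, ne_eq]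
      intro h0
      have h1 : Real.cos (jmp y) = 1 := by linarith
      have hj1 : 0 < jmp y := by unfold jmp; have := hy.1; positivity
      have hj2 : jmp y < 1 := by
        unfold jmp
        apply inv_lt_one_of_one_lt₀
        exact one_lt_pow₀ hy.1 (by norm_num)
      have h2 := (Real.cos_eq_one_iff_of_lt_of_lt (x := jmp y)
        (by linarith [Real.pi_pos]) (by linarith [Real.pi_gt_three])).1 h1
      linarith
    refine lt_of_lt_of_le ?_ (measure_mono hsub)
    rw [Real.volume_Ioo]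
    norm_num
  · intro y
    simp only [Pi.zero_apply]
    linarith [Real.cos_le_one (jmp y)]
  · exact integrable_cos

theorem integral_Ph_one : ∫ y, Ph 1 y = -(K : ℂ) := by
  have hre : ∀ y : ℝ, (Ph 1 y).re = -(1 - Real.cos (jmp y)) := by
    intro y
    unfold Ph
    have : ((1 : ℝ) * Complex.I * (jmp y : ℝ) : ℂ) = ((jmp y : ℝ) : ℂ) * Complex.I := by
      push_cast; ring
    rw [this, Complex.sub_re, Complex.exp_ofReal_mul_I_re]
    simp
  have hconj : ∀ y : ℝ, Ph 1 (-y) = conj (Ph 1 y) := by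
    intro y
    unfold Ph
    have h1 : jmp (-y) = -jmp y := by
      unfold jmp
      rw [Odd.neg_pow (by decide), inv_neg]
    rw [h1, map_sub, map_one, ← Complex.exp_conj]
    congr 2
    simp
  have h1 : ∫ y, Ph 1 y = conj (∫ y, Ph 1 y) := by
    rw [← integral_conj]
    simp_rw [← hconj]
    exact (integral_neg_eq_self (Ph 1) volume).symm
  have him : (∫ y, Ph 1 y).im = 0 := by
    have := congrArg Complex.im h1
    rw [Complex.conj_im] at this
    linarith
  apply Complex.ext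
  · have h2 := integral_re (𝕜 := ℂ) (integrable_Ph 1)
    simp only [RCLike.re_eq_complex_re] at h2
    rw [← h2]
    simp_rw [hre]
    rw [integral_neg]
    simp [K]
  · rw [him]; simp

theorem exists_root {θ : ℝ} (hθ : θ ≠ 0) : ∃ a : ℝ, a ≠ 0 ∧ a ^ 21 = θ ∧ |a| = |θ| ^ (1 / 21 : ℝ) := by
  have h1 : (|θ| ^ (1 / 21 : ℝ)) ^ 21 = |θ| := by
    rw [← Real.rpow_natCast, ← Real.rpow_mul (abs_nonneg _)]
    norm_num
  have h2 : 0 < |θ| ^ (1 / 21 : ℝ) := Real.rpow_pos_of_pos (abs_pos.2 hθ) _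
  rcases lt_or_gt_of_ne hθ with h | h
  · refine ⟨-(|θ| ^ (1 / 21 : ℝ)), by linarith, ?_, ?_⟩
    · rw [Odd.neg_pow (by decide), h1, abs_of_neg h, neg_neg]
    · rw [abs_neg, abs_of_pos h2]
  · refine ⟨|θ| ^ (1 / 21 : ℝ), h2.ne', ?_, abs_of_pos h2⟩
    rw [h1, abs_of_pos h]

theorem integral_Ph (θ : ℝ) : ∫ y, Ph θ y = -((K * |θ| ^ (1 / 21 : ℝ) : ℝ) : ℂ) := by
  by_cases hθ : θ = 0
  · subst hθ
    have : ∀ y, Ph 0 y = 0 := by intro y; simp [Ph]
    simp [this]
  · obtain ⟨a, ha0, ha, haabs⟩ := exists_root hθ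
    have h := MeasureTheory.Measure.integral_comp_mul_left (Ph θ) a
    have h1 : ∀ x : ℝ, Ph θ (a * x) = Ph 1 x := by
      intro x
      unfold Ph
      have h2 : θ * jmp (a * x) = 1 * jmp x := by
        unfold jmp
        rw [mul_pow, ha, mul_inv, ← mul_assoc, mul_inv_cancel₀ hθ]
      have h3 : (θ * Complex.I * (jmp (a * x) : ℝ) : ℂ) = ((θ * jmp (a * x) : ℝ) : ℂ) * Complex.I := by
        push_cast; ring
      rw [h3, h2]
      congr 2
      push_cast
      ring
    simp_rw [h1] at h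
    rw [integral_Ph_one] at h
    have h4 : (∫ y, Ph θ y) = (|a| : ℝ) • (-(K : ℂ)) := by
      rw [h, smul_smul, abs_inv, mul_inv_cancel₀ (abs_ne_zero.2 ha0), one_smul]
    rw [h4, haabs, Complex.real_smul]
    push_cast
    ring

/-- the rate of the Poisson processes -/
noncomputable def rt : ℝ≥0 := ⟨K⁻¹, (inv_pos.2 K_pos).le⟩

theorem tendsto_ex (θ : ℝ) : Tendsto (fun F : Finset ℤ => (rt : ℂ) * ∑ m ∈ F, ex θ m) atTop
    (𝓝 (-((|θ| ^ (1 / 21 : ℝ) : ℝ) : ℂ))) := by
  have h1 := (hasSum_ex θ).mul_left (rt : ℂ)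
  rw [integral_Ph] at h1
  have h2 : (rt : ℂ) * -((K * |θ| ^ (1 / 21 : ℝ) : ℝ) : ℂ) = -((|θ| ^ (1 / 21 : ℝ) : ℝ) : ℂ) := by
    have h3 : (rt : ℂ) = ((K⁻¹ : ℝ) : ℂ) := rfl
    rw [h3, ← Complex.ofReal_neg, ← Complex.ofReal_mul, ← Complex.ofReal_neg]
    congr 1
    have := K_pos.ne'
    field_simp
  rw [h2] at h1
  have h4 : Tendsto (fun F : Finset ℤ => ∑ m ∈ F, (rt : ℂ) * ex θ m) atTop
    (𝓝 (-((|θ| ^ (1 / 21 : ℝ) : ℝ) : ℂ))) := h1
  simpa only [Finset.mul_sum] using h4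

end Pool.Agent.Y978.ST
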