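import Pool.Agent.Y978.ST.Block

set_option autoImplicit false

open MeasureTheory ProbabilityTheory Set Filter Topology
open scoped NNReal ENNReal

namespace Pool.Agent.Y978.ST

open Pool.Agent.W850.HT (unif)

/-- The size of the jump with mark `y`. -/
noncomputable def jmp (y : ℝ) : ℝ := (y ^ 21)⁻¹

theorem measurable_jmp : Measurable jmp := by unfold jmp; fun_prop

/-- Contribution of the point `i` of the block `(m, k)` to the process at time `t`. -/
noncomputable def pt (m : ℤ) (k : ℕ) (i : ℕ) (t : ℝ) (ω : Om) : ℝ :=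
  if 0 < ((ω (m, k)).2 i).1 ∧ k + ((ω (m, k)).2 i).1 ≤ t then jmp (m + ((ω (m, k)).2 i).2) else 0

/-- Contribution of the level `m` to the process at time `t`. -/
noncomputable def L (m : ℤ) (t : ℝ) (ω : Om) : ℝ :=
  ∑ k ∈ Finset.range ⌈t⌉₊, ∑ i ∈ Finset.range (ω (m, k)).1, pt m k i t ω

/-- Total size of the jumps of the level `m` in the first `B` blocks. -/
noncomputable def V (m : ℤ) (B : ℕ) (ω : Om) : ℝ :=
  ∑ k ∈ Finset.range B, ∑ i ∈ Finset.range (ω (m, k)).1, |jmp (m + ((ω (m, k)).2 i).2)|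

theorem pt_zero {m : ℤ} {k i : ℕ} {t : ℝ} (h : t ≤ k) (ω : Om) : pt m k i t ω = 0 := by
  unfold pt
  rw [if_neg]
  rintro ⟨h1, h2⟩
  linarith

theorem L_eq (m : ℤ) {t : ℝ} {B : ℕ} (hB : ⌈t⌉₊ ≤ B) (ω : Om) :
    L m t ω = ∑ k ∈ Finset.range B, ∑ i ∈ Finset.range (ω (m, k)).1, pt m k i t ω := by
  unfold L
  refine Finset.sum_subset (Finset.range_subset_range.2 hB) ?_
  intro k _ hk
  apply Finset.sum_eq_zero
  intro i _
  apply pt_zero
  rw [Finset.mem_range, not_lt] at hk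
  exact Nat.ceil_le.1 hk

theorem L_zero (m : ℤ) {t : ℝ} (h : t ≤ 0) (ω : Om) : L m t ω = 0 := by
  unfold L
  rw [Nat.ceil_eq_zero.2 h]
  simp

theorem abs_pt_le (m : ℤ) (k i : ℕ) (t : ℝ) (ω : Om) :
    |pt m k i t ω| ≤ |jmp (m + ((ω (m, k)).2 i).2)| := by
  unfold pt
  split_ifs
  · exact le_rfl
  · simp

theorem abs_L_le (m : ℤ) {t : ℝ} {B : ℕ} (hB : ⌈t⌉₊ ≤ B) (ω : Om) : |L m t ω| ≤ V m B ω := by
  rw [L_eq m hB ω]
  refine (Finset.abs_sum_le_sum_abs _ _).trans ?_
  refine Finset.sum_le_sum (fun k _ => ?_)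
  refine (Finset.abs_sum_le_sum_abs _ _).trans ?_
  exact Finset.sum_le_sum (fun i _ => abs_pt_le m k i t ω)

theorem pt_right (m : ℤ) (k i : ℕ) (t : ℝ) (ω : Om) :
    ∀ᶠ u in 𝓝[≥] t, pt m k i u ω = pt m k i t ω := by
  by_cases hi : k + ((ω (m, k)).2 i).1 ≤ t
  · filter_upwards [self_mem_nhdsWithin] with u hu
    unfold pt
    have h2 : k + ((ω (m, k)).2 i).1 ≤ u := hi.trans hu
    simp only [hi, h2]
  · have : ∀ᶠ u in 𝓝 t, u < k + ((ω (m, k)).2 i).1 := eventually_lt_nhds (not_le.1 hi)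
    filter_upwards [mem_nhdsWithin_of_mem_nhds this] with u hu
    unfold pt
    have h2 : ¬ (k + ((ω (m, k)).2 i).1 ≤ u) := not_le.2 hu
    simp only [hi, h2]

theorem pt_left (m : ℤ) (k i : ℕ) (t : ℝ) (ω : Om) :
    ∃ c : ℝ, ∀ᶠ u in 𝓝[<] t, pt m k i u ω = c := by
  by_cases hi : k + ((ω (m, k)).2 i).1 < t
  · refine ⟨pt m k i t ω, ?_⟩
    have : ∀ᶠ u in 𝓝 t, k + ((ω (m, k)).2 i).1 < u := eventually_gt_nhds hi
    filter_upwards [mem_nhdsWithin_of_mem_nhds this] with u hu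
    unfold pt
    have h1 := hi.le
    have h2 := le_of_lt hu
    simp only [h1, h2]
  · refine ⟨0, ?_⟩
    filter_upwards [self_mem_nhdsWithin] with u hu
    unfold pt
    rw [if_neg]
    rintro ⟨_, h⟩
    exact hi (lt_of_le_of_lt h hu)

theorem L_right (m : ℤ) (t : ℝ) (ω : Om) : Tendsto (fun u => L m u ω) (𝓝[≥] t) (𝓝 (L m t ω)) := by
  have h1 : ∀ k ∈ Finset.range (⌈t⌉₊ + 1), ∀ᶠ u in 𝓝[≥] t,
      ∀ i ∈ Finset.range (ω (m, k)).1, pt m k i u ω = pt m k i t ω := by
    intro k _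
    rw [Filter.eventually_all_finset]
    exact fun i _ => pt_right m k i t ω
  rw [← Filter.eventually_all_finset] at h1
  have h3 : ∀ᶠ u in 𝓝[≥] t, u < t + 1 :=
    mem_nhdsWithin_of_mem_nhds (eventually_lt_nhds (by linarith))
  refine tendsto_const_nhds.congr' ?_
  filter_upwards [h1, h3] with u hu hu3
  have h4 : ⌈u⌉₊ ≤ ⌈t⌉₊ + 1 := by
    rw [Nat.ceil_le]
    push_cast
    have := Nat.le_ceil t
    linarith
  rw [L_eq m h4 ω, L_eq m (Nat.le_succ _) ω]
  exact (Finset.sum_congr rfl (fun k hk => Finset.sum_congr rfl (fun i hi => hu k hk i hi))).symm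

theorem L_left (m : ℤ) (t : ℝ) (ω : Om) : ∃ c, Tendsto (fun u => L m u ω) (𝓝[<] t) (𝓝 c) := by
  choose c hc using fun (k i : ℕ) => pt_left m k i t ω
  refine ⟨∑ k ∈ Finset.range ⌈t⌉₊, ∑ i ∈ Finset.range (ω (m, k)).1, c k i, ?_⟩
  have h1 : ∀ k ∈ Finset.range ⌈t⌉₊, ∀ᶠ u in 𝓝[<] t,
      ∀ i ∈ Finset.range (ω (m, k)).1, pt m k i u ω = c k i := by
    intro k _
    rw [Filter.eventually_all_finset]
    exact fun i _ => hc k i
  rw [← Filter.eventually_all_finset] at h1
  refine tendsto_const_nhds.congr' ?_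
  filter_upwards [h1, self_mem_nhdsWithin] with u hu hu3
  rw [L_eq m (Nat.ceil_mono (le_of_lt hu3)) ω]
  exact (Finset.sum_congr rfl (fun k hk => Finset.sum_congr rfl (fun i hi => hu k hk i hi))).symm

theorem measurable_pt_block (m : ℤ) (k : ℕ) (t : ℝ) :
    Measurable (fun ω : Om => ∑ i ∈ Finset.range (ω (m, k)).1, pt m k i t ω) := by
  have h : Measurable (fun b : MBlk => ∑ i ∈ Finset.range b.1,
      if 0 < (b.2 i).1 ∧ k + (b.2 i).1 ≤ t then jmp (m + (b.2 i).2) else 0) := by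
    apply measurable_from_prod_countable_right
    intro n
    simp only
    apply Finset.measurable_sum
    intro i _
    apply Measurable.ite _ _ measurable_const
    · have h1 : MeasurableSet {x : ℝ | 0 < x ∧ (k : ℝ) + x ≤ t} := by
        apply MeasurableSet.inter
        · exact measurableSet_Ioi
        · exact measurableSet_le (measurable_const.add measurable_id) measurable_const
      exact h1.preimage (measurable_fst.comp (measurable_pi_apply i))
    · exact measurable_jmp.comp (measurable_const.add (measurable_snd.comp (measurable_pi_apply i)))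
  exact h.comp (measurable_pi_apply (m, k))

theorem measurable_L (m : ℤ) (t : ℝ) : Measurable (L m t) := by
  unfold L
  exact Finset.measurable_sum _ (fun k _ => measurable_pt_block m k t)

/-- size of jumps at high levels -/
theorem abs_jmp_le {M : ℕ} (hM : 1 ≤ M) {m : ℤ} (hm : m < -M ∨ (M : ℤ) ≤ m) {v : ℝ} (hv : 0 < v)
    (hv1 : v ≤ 1) : |jmp (m + v)| ≤ 5 / ((m : ℝ) ^ 2 + 1) * (1 / (M : ℝ) ^ 19) := by
  have hM' : (1 : ℝ) ≤ M := by exact_mod_cast hM
  set y : ℝ := m + v with hy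
  have hy1 : (M : ℝ) ≤ |y| ∧ ((m : ℝ) ^ 2 + 1) ≤ 5 * |y| ^ 2 := by
    rcases hm with hm | hm
    · have h1 : (m : ℝ) + 1 ≤ -M := by
        have : m + 1 ≤ -(M : ℤ) := by omega
        exact_mod_cast this
      have h2 : y ≤ -M := by rw [hy]; linarith
      have h3 : |y| = -y := abs_of_nonpos (by linarith)
      constructor
      · rw [h3]; linarith
      · have h4 : 0 ≤ -(m : ℝ) := by linarith
        have h5 : -(m : ℝ) ≤ |y| + 1 := by rw [h3, hy]; linarith
        have h6 : 1 ≤ |y| := by rw [h3]; linarith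
        nlinarith
    · have h1 : (M : ℝ) ≤ m := by exact_mod_cast hm
      have h2 : (M : ℝ) ≤ y := by rw [hy]; linarith
      have h3 : |y| = y := abs_of_nonneg (by linarith)
      constructor
      · rw [h3]; exact h2
      · have h5 : (m : ℝ) ≤ |y| := by rw [h3, hy]; linarith
        have h6 : 1 ≤ |y| := by rw [h3]; linarith
        nlinarith
  obtain ⟨h1, h2⟩ := hy1
  have hy0 : 0 < |y| := lt_of_lt_of_le (by linarith) h1
  have h3 : |jmp y| = (|y| ^ 2)⁻¹ * (|y| ^ 19)⁻¹ := by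
    unfold jmp
    rw [abs_inv, abs_pow, ← mul_inv, ← pow_add]
  rw [h3]
  apply mul_le_mul
  · rw [inv_eq_one_div, div_le_div_iff₀ (by positivity) (by positivity)]
    linarith
  · rw [one_div]
    apply inv_anti₀ (by positivity)
    exact pow_le_pow_left₀ (by positivity) h1 19
  · positivity
  · positivity

end Pool.Agent.Y978.ST
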