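import Pool.Agent.Y978.ST.Level

set_option autoImplicit false

open MeasureTheory ProbabilityTheory Set Filter Topology
open scoped NNReal ENNReal

namespace Pool.Agent.Y978.ST

open Pool.Agent.W850.HT (unif)

/-- weights of the levels -/
noncomputable def wt (m : ℤ) : ℝ := 1 / ((m : ℝ) ^ 2 + 1)

theorem wt_pos (m : ℤ) : 0 < wt m := by unfold wt; positivity

theorem summable_wt : Summable wt := by
  have h1 : Summable (fun m : ℤ => 1 / ((m : ℝ)) ^ 2) :=
    Real.summable_one_div_int_pow.2 (by norm_num)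
  have h2 : Summable (fun m : ℤ => 1 / ((m : ℝ)) ^ 2 + if m = 0 then 1 else 0) := by
    refine h1.add ?_
    exact summable_of_hasFiniteSupport (Set.Finite.subset (Set.finite_singleton (0 : ℤ)) (by
      intro m hm
      by_contra hc
      exact hm (if_neg hc)))
  refine Summable.of_nonneg_of_le (fun m => (wt_pos m).le) (fun m => ?_) h2
  unfold wt
  by_cases hm : m = 0
  · subst hm; simp
  · rw [if_neg hm, add_zero]
    have : (0 : ℝ) < (m : ℝ) ^ 2 := by
      have : (m : ℝ) ≠ 0 := by exact_mod_cast hm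
      positivity
    exact one_div_le_one_div_of_le this (by linarith)

/-- number of points of the level `m` in the first `B` blocks -/
def cnt (m : ℤ) (B : ℕ) (ω : Om) : ℕ := ∑ k ∈ Finset.range B, (ω (m, k)).1

theorem measurable_cnt (m : ℤ) (B : ℕ) : Measurable (cnt m B) := by
  unfold cnt
  apply Finset.measurable_sum
  intro k _
  exact measurable_fst.comp (measurable_pi_apply _)

theorem lintegral_cnt (r : ℝ≥0) (m : ℤ) (B : ℕ) :
    ∫⁻ ω, (cnt m B ω : ℝ≥0∞) ∂(PP r) = B * r := by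
  unfold cnt
  push_cast
  rw [lintegral_finsetSum]
  · simp_rw [lintegral_count]
    simp
  · intro k _
    exact (measurable_from_nat (f := fun n : ℕ => (n : ℝ≥0∞))).comp
      (measurable_fst.comp (measurable_pi_apply _))

/-- The good set. -/
def G : Set Om := {ω | (∀ (p : ℤ × ℕ) (i : ℕ), ((ω p).2 i).2 ∈ Ioc (0 : ℝ) 1) ∧
  ∀ B : ℕ, ∑' m : ℤ, (cnt m B ω : ℝ≥0∞) * ENNReal.ofReal (wt m) < ∞}

theorem measurable_G : MeasurableSet G := by
  have hG : G = {ω : Om | ∀ (p : ℤ × ℕ) (i : ℕ), ((ω p).2 i).2 ∈ Ioc (0 : ℝ) 1} ∩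
      {ω : Om | ∀ B : ℕ, ∑' m : ℤ, (cnt m B ω : ℝ≥0∞) * ENNReal.ofReal (wt m) < ∞} := rfl
  rw [hG]
  apply MeasurableSet.inter
  · have : {ω : Om | ∀ (p : ℤ × ℕ) (i : ℕ), ((ω p).2 i).2 ∈ Ioc (0 : ℝ) 1} =
        ⋂ (p : ℤ × ℕ) (i : ℕ), {ω : Om | ((ω p).2 i).2 ∈ Ioc (0 : ℝ) 1} := by
      ext ω; simp
    rw [this]
    refine MeasurableSet.iInter (fun p => MeasurableSet.iInter (fun i => ?_))
    exact measurableSet_Ioc.preimage (measurable_snd.comp ((measurable_pi_apply i).comp
      (measurable_snd.comp (measurable_pi_apply p))))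
  · have : {ω : Om | ∀ B : ℕ, ∑' m : ℤ, (cnt m B ω : ℝ≥0∞) * ENNReal.ofReal (wt m) < ∞} =
        ⋂ B : ℕ, {ω : Om | ∑' m : ℤ, (cnt m B ω : ℝ≥0∞) * ENNReal.ofReal (wt m) < ∞} := by
      ext ω; simp
    rw [this]
    refine MeasurableSet.iInter (fun B => ?_)
    apply measurableSet_lt _ measurable_const
    apply Measurable.tsum
    intro m
    apply Measurable.mul_const
    exact (measurable_from_nat (f := fun n : ℕ => (n : ℝ≥0∞))).comp (measurable_cnt m B)

theorem ae_G (r : ℝ≥0) : ∀ᵐ ω ∂(PP r), ω ∈ G := by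
  unfold G
  have h1 : ∀ᵐ ω ∂(PP r), ∀ (p : ℤ × ℕ) (i : ℕ), ((ω p).2 i).2 ∈ Ioc (0 : ℝ) 1 := by
    rw [ae_all_iff]
    intro p
    rw [ae_all_iff]
    intro i
    have e1 : (PP r).map (fun ω : Om => ω p) = mblk r :=
      Measure.infinitePi_map_eval (fun _ : ℤ × ℕ => mblk r) p
    have e2 : (mblk r).map Prod.snd = Measure.infinitePi fun _ : ℕ => sq := by
      unfold mblk; rw [Measure.map_snd_prod]; simp
    have e3 : (Measure.infinitePi fun _ : ℕ => sq).map (fun y : ℕ → ℝ × ℝ => y i) = sq :=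
      Measure.infinitePi_map_eval (fun _ : ℕ => sq) i
    have e4 : sq.map Prod.snd = unif := by
      unfold sq; rw [Measure.map_snd_prod]; simp
    have h0 : ∀ᵐ x ∂unif, x ∈ Ioc (0 : ℝ) 1 := by
      unfold unif
      exact ae_restrict_mem measurableSet_Ioc
    rw [← e4] at h0
    have h00 := ae_of_ae_map measurable_snd.aemeasurable h0
    rw [← e3] at h00
    have h01 := ae_of_ae_map (measurable_pi_apply i).aemeasurable h00
    rw [← e2] at h01
    have h02 := ae_of_ae_map measurable_snd.aemeasurable h01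
    rw [← e1] at h02
    exact ae_of_ae_map (measurable_pi_apply p).aemeasurable h02
  have h2 : ∀ᵐ ω ∂(PP r), ∀ B : ℕ,
      ∑' m : ℤ, (cnt m B ω : ℝ≥0∞) * ENNReal.ofReal (wt m) < ∞ := by
    rw [ae_all_iff]
    intro B
    have hm : ∀ m : ℤ, Measurable (fun ω : Om => (cnt m B ω : ℝ≥0∞) * ENNReal.ofReal (wt m)) := by
      intro m
      apply Measurable.mul_const
      exact (measurable_from_nat (f := fun n : ℕ => (n : ℝ≥0∞))).comp (measurable_cnt m B)
    apply ae_lt_top (Measurable.tsum hm)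
    rw [lintegral_tsum (fun m => (hm m).aemeasurable)]
    have : ∀ m : ℤ, ∫⁻ ω, (cnt m B ω : ℝ≥0∞) * ENNReal.ofReal (wt m) ∂(PP r) =
        (B * r) * ENNReal.ofReal (wt m) := by
      intro m
      rw [lintegral_mul_const, lintegral_cnt]
      exact (measurable_from_nat (f := fun n : ℕ => (n : ℝ≥0∞))).comp (measurable_cnt m B)
    simp_rw [this]
    rw [ENNReal.tsum_mul_left]
    apply ENNReal.mul_ne_top
    · exact ENNReal.mul_ne_top (ENNReal.natCast_ne_top _) ENNReal.coe_ne_top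
    · exact summable_wt.tsum_ofReal_ne_top
  filter_upwards [h1, h2] with ω a b
  exact ⟨a, b⟩

theorem summable_cnt {ω : Om} (hω : ω ∈ G) (B : ℕ) :
    Summable (fun m : ℤ => (cnt m B ω : ℝ) * wt m) := by
  have h := (hω.2 B).ne
  have h2 := ENNReal.summable_toReal h
  refine h2.congr (fun m => ?_)
  rw [ENNReal.toReal_mul, ENNReal.toReal_natCast, ENNReal.toReal_ofReal (wt_pos m).le]

theorem V_nonneg (m : ℤ) (B : ℕ) (ω : Om) : 0 ≤ V m B ω := by
  unfold V
  exact Finset.sum_nonneg (fun k _ => Finset.sum_nonneg (fun i _ => abs_nonneg _))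

theorem V_le {ω : Om} (hω : ω ∈ G) {M : ℕ} (hM : 1 ≤ M) {m : ℤ} (hm : m < -M ∨ (M : ℤ) ≤ m)
    (B : ℕ) : V m B ω ≤ 5 * (1 / (M : ℝ) ^ 19) * ((cnt m B ω : ℝ) * wt m) := by
  unfold V cnt
  push_cast
  rw [Finset.sum_mul, Finset.mul_sum]
  refine Finset.sum_le_sum (fun k _ => ?_)
  calc ∑ i ∈ Finset.range (ω (m, k)).1, |jmp (m + ((ω (m, k)).2 i).2)|
      ≤ ∑ i ∈ Finset.range (ω (m, k)).1, (5 / ((m : ℝ) ^ 2 + 1) * (1 / (M : ℝ) ^ 19)) := by
        refine Finset.sum_le_sum (fun i _ => ?_)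
        have h := hω.1 (m, k) i
        exact abs_jmp_le hM hm h.1 h.2
    _ = _ := by
        rw [Finset.sum_const, Finset.card_range, nsmul_eq_mul]
        unfold wt
        ring

theorem summable_V {ω : Om} (hω : ω ∈ G) (B : ℕ) : Summable (fun m : ℤ => V m B ω) := by
  have h1 : Summable (fun m : ℤ => 5 * (1 / ((1 : ℕ) : ℝ) ^ 19) * ((cnt m B ω : ℝ) * wt m)) :=
    (summable_cnt hω B).mul_left _
  refine Summable.of_norm_bounded_eventually h1 ?_
  have hfin : {m : ℤ | ¬ (m < -(1 : ℕ) ∨ ((1 : ℕ) : ℤ) ≤ m)}.Finite := by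
    apply (Set.finite_Icc (-1 : ℤ) 0).subset
    intro m hm
    simp only [mem_ofPred_eq, not_or, not_lt, not_le] at hm
    constructor
    · have := hm.1; push_cast at this; linarith
    · have := hm.2; push_cast at this; omega
  refine Set.Finite.subset hfin ?_
  intro m hm
  intro hc
  apply hm
  change ‖V m B ω‖ ≤ _
  rw [Real.norm_of_nonneg (V_nonneg m B ω)]
  exact V_le hω le_rfl hc B

theorem summable_L {ω : Om} (hω : ω ∈ G) (t : ℝ) : Summable (fun m : ℤ => L m t ω) :=
  Summable.of_norm_bounded (summable_V hω ⌈t⌉₊) (fun m => by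
    rw [Real.norm_eq_abs]; exact abs_L_le m le_rfl ω)

open Classical in
/-- The process. -/
noncomputable def X (t : ℝ) (ω : Om) : ℝ := if ω ∈ G then ∑' m : ℤ, L m t ω else 0

theorem X_of_mem {ω : Om} (hω : ω ∈ G) (t : ℝ) : X t ω = ∑' m : ℤ, L m t ω := if_pos hω

theorem X_of_notMem {ω : Om} (hω : ω ∉ G) (t : ℝ) : X t ω = 0 := if_neg hω

theorem X_zero (ω : Om) : X 0 ω = 0 := by
  unfold X
  split_ifs
  · simp [L_zero _ le_rfl]
  · rfl

/-- partial sums over finitely many levels -/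
noncomputable def S (F : Finset ℤ) (t : ℝ) (ω : Om) : ℝ := ∑ m ∈ F, L m t ω

theorem measurable_S (F : Finset ℤ) (t : ℝ) : Measurable (S F t) := by
  unfold S
  exact Finset.measurable_sum _ (fun m _ => measurable_L m t)

theorem tendsto_S {ω : Om} (hω : ω ∈ G) (t : ℝ) :
    Tendsto (fun F => S F t ω) atTop (𝓝 (X t ω)) := by
  rw [X_of_mem hω]
  exact (summable_L hω t).hasSum

theorem measurable_X (t : ℝ) : Measurable (X t) := by
  refine measurable_of_tendsto_metrizable'
    (f := fun F : Finset ℤ => G.indicator (S F t)) atTop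
    (fun F => (measurable_S F t).indicator measurable_G) ?_
  rw [tendsto_pi_nhds]
  intro ω
  by_cases hω : ω ∈ G
  · simp only [indicator_of_mem hω]
    exact tendsto_S hω t
  · simp only [indicator_of_notMem hω, X_of_notMem hω]
    exact tendsto_const_nhds

theorem X_right (t : ℝ) (ω : Om) : ContinuousWithinAt (fun s => X s ω) (Ici t) t := by
  unfold ContinuousWithinAt
  by_cases hω : ω ∈ G
  · simp only [X_of_mem hω]
    have h3 : ∀ᶠ u in 𝓝[≥] t, u < t + 1 :=
      mem_nhdsWithin_of_mem_nhds (eventually_lt_nhds (by linarith))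
    refine tendsto_tsum_of_dominated_convergence (summable_V hω (⌈t⌉₊ + 1))
      (fun m => L_right m t ω) ?_
    filter_upwards [h3] with u hu m
    rw [Real.norm_eq_abs]
    apply abs_L_le
    rw [Nat.ceil_le]
    push_cast
    have := Nat.le_ceil t
    linarith
  · simp only [X_of_notMem hω]
    exact tendsto_const_nhds

theorem X_left (t : ℝ) (ω : Om) : ∃ l, Tendsto (fun s => X s ω) (𝓝[<] t) (𝓝 l) := by
  by_cases hω : ω ∈ G
  · simp only [X_of_mem hω]
    choose c hc using fun m => L_left m t ω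
    refine ⟨∑' m, c m, tendsto_tsum_of_dominated_convergence (summable_V hω ⌈t⌉₊) hc ?_⟩
    filter_upwards [self_mem_nhdsWithin] with u hu m
    rw [Real.norm_eq_abs]
    apply abs_L_le
    exact Nat.ceil_mono (le_of_lt hu)
  · simp only [X_of_notMem hω]
    exact ⟨0, tendsto_const_nhds⟩

end Pool.Agent.Y978.ST
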